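import Pool.Agent.U425.LV.Num

/-!
# Every `x ≠ R Q` outside the gap has a univoque base below `Q`
-/

set_option autoImplicit false

namespace Pool.Agent.U425.LV

open Pool.Agent.R341.Uni Filter Topology

theorem P_F {p : ℝ} (hp : 1 < p) (g : ℕ → Bool) : P p (F g) = R p + (1 - P p g) / p ^ 4 := by
  have h := P_split hp (F g) 4
  have f0 : F g 0 = true := by simp [F, glue, ep]
  have f1 : F g 1 = false := by simp [F, glue, ep]
  have f2 : F g 2 = false := by simp [F, glue, ep]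
  have f3 : F g 3 = true := by simp [F, glue, ep]
  rw [sh_F, P_compl hp] at h
  simp only [Finset.sum_range_succ, Finset.sum_range_zero, f0, f1, f2, f3, dg_true, dg_false,
    zero_div, add_zero, zero_add] at h
  rw [h]
  unfold R
  have h1 : p ≠ 0 := by linarith
  have h2 : p - 1 ≠ 0 := by linarith
  field_simp
  ring

theorem tau_pos {Q : ℝ} (hQ : Base Q) {k : ℕ} (hk : k < 5) : 0 < 1 - P Q (tau k) := by
  have h0 := hQ.e0.1
  have h1 := hQ.e1.1
  have h2 := hQ.e2.1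
  have h3 := hQ.e3.1
  have h4 := hQ.e4.1
  norm_num at h0 h1 h2 h3 h4
  interval_cases k <;> linarith

theorem exists_q {Q : ℝ} (hQ : Base Q) {i : ℕ} {k : ℕ} (hk : k < 5) {a : ℝ}
    (ha : 1 < a) (haQ : a < Q) (h1 : 1 < P a (G i (tau k))) :
    ∃ q, a < q ∧ q < Q ∧ P q (G i (tau k)) = 1 := by
  have hQ1 := hQ.one_lt
  refine P_ivt ha haQ.le _ ?_ h1
  have h := hQ.PG i (tau k)
  have h2 : 0 < (1 - P Q (tau k)) / Q ^ (13 * i) := div_pos (tau_pos hQ hk) (by positivity)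
  linarith

theorem one_lt_P {i : ℕ} (hi : 1 ≤ i) (τ : ℕ → Bool) : 1 < P 1.888 (G i τ) := by
  have h := P_split (q := 1.888) (by norm_num) (G i τ) 13
  rw [sum13 (fun l hl => G_lt τ (by omega))] at h
  have h2 : 0 ≤ P 1.888 (sh 13 (G i τ)) / (1.888 : ℝ) ^ 13 :=
    div_nonneg (P_nonneg (by norm_num) _) (by positivity)
  have h3 : (1 : ℝ) < 1 / 1.888 ^ 1 + 1 / 1.888 ^ 2 + 1 / 1.888 ^ 3 + 1 / 1.888 ^ 6 + 1 / 1.888 ^ 7 +
      1 / 1.888 ^ 8 + 1 / 1.888 ^ 11 + 1 / 1.888 ^ 12 := by norm_num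
  linarith

/-- the points slightly above `R Q`, one scale -/
theorem cover {Q : ℝ} (hQ : Base Q) {i : ℕ} (hi : 1 ≤ i) {k : ℕ} (hk : k < 5) {x : ℝ}
    (h1 : R Q + (1 - P Q (G i (tau k))) / Q ^ 4 < x)
    (h2 : x < R Q + (1 - P Q (G i (tau k))) / 2) : ∃ p ∈ Ux x, p < Q := by
  obtain ⟨q, h3, h4, h5⟩ := exists_q hQ (i := i) hk (a := 1.888) (by norm_num) (by linarith [hQ.lo])
    (one_lt_P hi _)
  have hQ1 := hQ.one_lt
  have h6 := R_half hQ h3.le h4 (fun l hl => G_lt _ (by omega)) h5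
  have hq1 : 1 < q := by linarith
  obtain ⟨p, h7, h8, h9⟩ := P_ivt (y := x) hq1 h4.le (F (G i (tau k)))
    (by rw [P_F hQ1]; exact h1) (by rw [P_F hq1, h5]; simp only [sub_self, zero_div, add_zero]; linarith)
  refine ⟨p, mem_Ux.2 ⟨by linarith, by linarith [hQ.hi], _, h9, ?_⟩, h8⟩
  refine un_F hi k (by linarith) ?_
  rw [← h5]
  have g0 : G i (tau k) 0 = true := by rw [G_lt _ (by omega)]; decide
  exact P_strict hq1 h7 _ g0

/-- the scales -/
noncomputable def en (Q : ℝ) (n : ℕ) : ℝ := 1 - P Q (G (n / 5 + 1) (tau (n % 5)))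

theorem en_eq {Q : ℝ} (hQ : Base Q) (n : ℕ) :
    en Q n = (1 - P Q (tau (n % 5))) / Q ^ (13 * (n / 5 + 1)) := hQ.PG _ _

theorem chain {Q : ℝ} (hQ : Base Q) (n : ℕ) : en Q n / Q ^ 4 < en Q (n + 1) / 2 := by
  have hQ1 := hQ.one_lt
  have hlo := hQ.lo
  have hhi := hQ.hi
  have h0 := hQ.e0
  have h1 := hQ.e1
  have h2 := hQ.e2
  have h3 := hQ.e3
  have h4 := hQ.e4
  norm_num at h0 h1 h2 h3 h4
  have q4 : (12.7 : ℝ) ≤ Q ^ 4 := by
    calc (12.7 : ℝ) ≤ 1.888443 ^ 4 := by norm_num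
      _ ≤ Q ^ 4 := pow_le_pow_left₀ (by norm_num) hlo.le 4
  have q13 : Q ^ 13 ≤ 3885 := by
    calc Q ^ 13 ≤ 1.888444 ^ 13 := pow_le_pow_left₀ (by linarith) hhi.le 13
      _ ≤ 3885 := by norm_num
  rw [en_eq hQ, en_eq hQ]
  obtain ⟨i, k, hk, rfl⟩ : ∃ i k, k < 5 ∧ n = 5 * i + k :=
    ⟨n / 5, n % 5, Nat.mod_lt _ (by norm_num), (Nat.div_add_mod n 5).symm⟩
  have e1 : (5 * i + k) % 5 = k := by omega
  have e2 : (5 * i + k) / 5 = i := by omega
  rw [e1, e2]
  have hX : 0 < Q ^ (13 * (i + 1)) := by positivity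
  rcases Nat.lt_or_ge k 4 with hk4 | hk4
  · have e3 : (5 * i + k + 1) % 5 = k + 1 := by omega
    have e4 : (5 * i + k + 1) / 5 = i := by omega
    rw [e3, e4, div_div, div_div, mul_comm (Q ^ (13 * (i + 1))) (Q ^ 4),
      mul_comm (Q ^ (13 * (i + 1))) 2, ← div_div, ← div_div]
    apply div_lt_div_of_pos_right _ hX
    rw [div_lt_iff₀ (by positivity)]
    have hp := tau_pos hQ (k := k + 1) (by omega)
    have hm : (1 - P Q (tau (k + 1))) / 2 * 12.7 ≤ (1 - P Q (tau (k + 1))) / 2 * Q ^ 4 :=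
      mul_le_mul_of_nonneg_left q4 (by linarith)
    refine lt_of_lt_of_le ?_ hm
    interval_cases k
    · norm_num; linarith
    · norm_num; linarith
    · norm_num; linarith
    · norm_num; linarith
  · have hk' : k = 4 := by omega
    subst hk'
    have e3 : (5 * i + 4 + 1) % 5 = 0 := by omega
    have e4 : (5 * i + 4 + 1) / 5 = i + 1 := by omega
    rw [e3, e4, show 13 * (i + 1 + 1) = 13 * (i + 1) + 13 by ring, pow_add, div_div, div_div,
      mul_assoc, ← div_div, ← div_div, div_right_comm, div_right_comm (1 - P Q (tau 0))]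
    apply div_lt_div_of_pos_right _ hX
    have s1 : (1 - P Q (tau 4)) / Q ^ 4 ≤ 0.000386 / 12.7 :=
      div_le_div₀ (by norm_num) (by linarith) (by norm_num) q4
    have s2 : 0.2641 / (3885 * 2) ≤ (1 - P Q (tau 0)) / (Q ^ 13 * 2) :=
      div_le_div₀ (by linarith) (by linarith) (by positivity) (by linarith)
    refine lt_of_le_of_lt s1 (lt_of_lt_of_le ?_ s2)
    norm_num

theorem en_small {Q : ℝ} (hQ : Base Q) {δ : ℝ} (hδ : 0 < δ) : ∃ n, en Q n / Q ^ 4 < δ := by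
  have hQ1 := hQ.one_lt
  obtain ⟨i, hi⟩ := exists_pow_lt_of_lt_one hδ (show 1 / Q < 1 by
    rw [div_lt_one (by linarith)]; exact hQ1)
  refine ⟨5 * i, ?_⟩
  rw [en_eq hQ]
  have e1 : 5 * i % 5 = 0 := by omega
  have e2 : 5 * i / 5 = i := by omega
  rw [e1, e2]
  have h1 : 1 - P Q (tau 0) ≤ 1 := by
    have := P_nonneg hQ1 (tau 0)
    linarith
  have h0 := (tau_pos hQ (k := 0) (by norm_num)).le
  calc (1 - P Q (tau 0)) / Q ^ (13 * (i + 1)) / Q ^ 4
      ≤ (1 - P Q (tau 0)) / Q ^ (13 * (i + 1)) / 1 :=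
        div_le_div_of_nonneg_left (by positivity) one_pos (one_le_pow₀ hQ1.le)
    _ ≤ 1 / Q ^ i := by
        rw [div_one]
        exact div_le_div₀ zero_le_one h1 (by positivity) (pow_le_pow_right₀ hQ1.le (by omega))
    _ = (1 / Q) ^ i := by rw [one_div_pow]
    _ < δ := hi

/-- the points slightly above `R Q` -/
theorem near {Q : ℝ} (hQ : Base Q) {x : ℝ} (h1 : R Q < x) (h2 : x < R Q + en Q 0 / 2) :
    ∃ p ∈ Ux x, p < Q := by
  classical
  have hex : ∃ n, R Q + en Q n / Q ^ 4 < x := by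
    obtain ⟨n, hn⟩ := en_small hQ (δ := x - R Q) (by linarith)
    exact ⟨n, by linarith⟩
  have hs := Nat.find_spec hex
  have key : x < R Q + en Q (Nat.find hex) / 2 := by
    rcases Nat.eq_zero_or_pos (Nat.find hex) with h | h
    · rw [h]; exact h2
    · obtain ⟨m, hm⟩ : ∃ m, Nat.find hex = m + 1 := ⟨Nat.find hex - 1, by omega⟩
      have hmin := Nat.find_min hex (m := m) (by omega)
      push Not at hmin
      rw [hm]
      have := chain hQ m
      linarith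
  exact cover hQ (by omega) (Nat.mod_lt _ (by norm_num)) hs key

/-! ### explicit words -/

theorem branch1 (u v : List Bool) (q : ℚ) (lo hi : ℚ) (hv : 1 ≤ v.length) (hq : 1 < q)
    (hqB : q < qa) (hc : chk q (pv q v) (u ++ v) = true) (hlo : fv qa (pv qa v) u ≤ lo)
    (hhi : hi ≤ fv q (pv q v) u) {x : ℝ} (h1 : (lo : ℝ) < x) (h2 : x < hi) :
    ∃ q ∈ Ux x, q ≤ (qa : ℝ) := by
  have hB : (1 : ℚ) < qa := by unfold qa; norm_num
  have hB2 : (qa : ℝ) ≤ 2 := by rw [qa_eq]; norm_num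
  have hq' : (1 : ℝ) < q := by exact_mod_cast hq
  have hqB' : (q : ℝ) < qa := by exact_mod_cast hqB
  have hU := ep_un hq hv hc
  have e1 : P (qa : ℝ) (ep u v) < x := by
    rw [ep_val hB hv]
    refine lt_of_le_of_lt ?_ h1
    exact_mod_cast hlo
  have e2 : x < P (q : ℝ) (ep u v) := by
    rw [ep_val hq hv]
    refine lt_of_lt_of_le h2 ?_
    exact_mod_cast hhi
  obtain ⟨q', h3, h4, h5⟩ := P_ivt hq' hqB'.le _ e1 e2
  exact ⟨q', mem_Ux.2 ⟨by linarith, by linarith, _, h5, hU.mono hq' h3.le⟩, h4.le⟩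

theorem E4 {x : ℝ} (h1 : ((618070 / 1000000 : ℚ) : ℝ) < x) (h2 : x < ((618262 / 1000000 : ℚ) : ℝ)) :
    ∃ q ∈ Ux x, q ≤ (qa : ℝ) :=
  branch1 (W [1,0,0,1,0,0,0,1,1,0,0,0,1,1,0,1]) (W [0,1]) (188805/100000) _ _ (by decide)
    (by norm_num) (by unfold qa; norm_num) (by decide +kernel) (by decide +kernel)
    (by decide +kernel) h1 h2

theorem E3 {x : ℝ} (h1 : ((618209 / 1000000 : ℚ) : ℝ) < x) (h2 : x < ((619316 / 1000000 : ℚ) : ℝ)) :
    ∃ q ∈ Ux x, q ≤ (qa : ℝ) :=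
  branch1 (W [1,0,0,1,0,0,0,1,1,0,0,1,0]) (W [0,1]) (18862/10000) _ _ (by decide)
    (by norm_num) (by unfold qa; norm_num) (by decide +kernel) (by decide +kernel)
    (by decide +kernel) h1 h2

theorem E2 {x : ℝ} (h1 : ((618899 / 1000000 : ℚ) : ℝ) < x) (h2 : x < ((62475 / 100000 : ℚ) : ℝ)) :
    ∃ q ∈ Ux x, q ≤ (qa : ℝ) :=
  branch1 (W [1,0,0,1,0,0,0,1,1,0,1]) (W [0,1]) (18768/10000) _ _ (by decide)
    (by norm_num) (by unfold qa; norm_num) (by decide +kernel) (by decide +kernel)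
    (by decide +kernel) h1 h2

theorem E1 {x : ℝ} (h1 : ((622252 / 1000000 : ℚ) : ℝ) < x) (h2 : x < ((6488 / 10000 : ℚ) : ℝ)) :
    ∃ q ∈ Ux x, q ≤ (qa : ℝ) :=
  branch1 (W [1,0,0,1,0,0,1,0]) (W [0,1]) (18384/10000) _ _ (by decide)
    (by norm_num) (by unfold qa; norm_num) (by decide +kernel) (by decide +kernel)
    (by decide +kernel) h1 h2

theorem E0 {x : ℝ} (h1 : ((6448 / 10000 : ℚ) : ℝ) < x) (h2 : x < ((7103 / 10000 : ℚ) : ℝ)) :
    ∃ q ∈ Ux x, q ≤ (qa : ℝ) :=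
  branch1 (W [1,0,0,1]) (W [0,1,1,0]) (17876/10000) _ _ (by decide)
    (by norm_num) (by unfold qa; norm_num) (by decide +kernel) (by decide +kernel)
    (by decide +kernel) h1 h2

theorem E7 {x : ℝ} (h1 : ((661 / 1000 : ℚ) : ℝ) < x) (h2 : x < ((75 / 100 : ℚ) : ℝ)) :
    ∃ q ∈ Ux x, q ≤ (qa : ℝ) :=
  branch1 (W []) (W [1,0,0,1]) (176/100) _ _ (by decide)
    (by norm_num) (by unfold qa; norm_num) (by decide +kernel) (by decide +kernel)
    (by decide +kernel) h1 h2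

theorem E8 {x : ℝ} (h1 : ((736 / 1000 : ℚ) : ℝ) < x) (h2 : x < ((997 / 1000 : ℚ) : ℝ)) :
    ∃ q ∈ Ux x, q ≤ (qa : ℝ) :=
  branch1 (W []) (W [1,0]) (162/100) _ _ (by decide)
    (by norm_num) (by unfold qa; norm_num) (by decide +kernel) (by decide +kernel)
    (by decide +kernel) h1 h2

theorem E9 {x : ℝ} (h1 : ((92 / 100 : ℚ) : ℝ) < x) (h2 : x < ((123 / 100 : ℚ) : ℝ)) :
    ∃ q ∈ Ux x, q ≤ (qa : ℝ) :=
  branch1 (W [1]) (W [1,0]) (162/100) _ _ (by decide)
    (by norm_num) (by unfold qa; norm_num) (by decide +kernel) (by decide +kernel)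
    (by decide +kernel) h1 h2

theorem E10 {x : ℝ} (h1 : ((38968 / 100000 : ℚ) : ℝ) < x) (h2 : x < ((6180327 / 10000000 : ℚ) : ℝ)) :
    ∃ q ∈ Ux x, q ≤ (qa : ℝ) :=
  branch1 (W [0]) (W [1,0]) (1618035/1000000) _ _ (by decide)
    (by norm_num) (by unfold qa; norm_num) (by decide +kernel) (by decide +kernel)
    (by decide +kernel) h1 h2

theorem E11 {x : ℝ} (h1 : ((34953 / 100000 : ℚ) : ℝ) < x) (h2 : x < ((42649 / 100000 : ℚ) : ℝ)) :
    ∃ q ∈ Ux x, q ≤ (qa : ℝ) :=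
  branch1 (W [0]) (W [1,0,0,1]) (176/100) _ _ (by decide)
    (by norm_num) (by unfold qa; norm_num) (by decide +kernel) (by decide +kernel)
    (by decide +kernel) h1 h2

theorem small1 {x : ℝ} (h0 : 0 < x) (h1 : x < 38 / 100) : ∃ q ∈ Ux x, q ≤ (qa : ℝ) := by
  set z := ep [] (W [1, 0]) with hz
  have hB : (1 : ℚ) < qa := by unfold qa; norm_num
  have hB' : (1 : ℝ) < (qa : ℝ) := by exact_mod_cast hB
  have hB2 : (qa : ℝ) ≤ 2 := by rw [qa_eq]; norm_num
  have hA : P (qa : ℝ) z < 0.736 := by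
    rw [hz, ep_val hB (by decide)]
    have : fv qa (pv qa (W [1, 0])) [] < 0.736 := by decide +kernel
    have h2 : ((fv qa (pv qa (W [1, 0])) [] : ℚ) : ℝ) < ((0.736 : ℚ) : ℝ) := by exact_mod_cast this
    refine lt_of_lt_of_eq h2 ?_
    norm_num
  have hBv : (0.9972 : ℝ) < P 1.62 z ∧ P 1.62 z < 1 ∧ (0.38 : ℝ) * 1.62 ^ 2 < P 1.62 z := by
    have e := ep_val (q := 1.62) (by norm_num) (u := []) (v := W [1, 0]) (by decide)
    have e3 : ((1.62 : ℚ) : ℝ) = 1.62 := by norm_num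
    rw [e3] at e
    rw [hz, e]
    have t1 : 0.9972 < fv 1.62 (pv 1.62 (W [1, 0])) [] := by decide +kernel
    have t2 : fv 1.62 (pv 1.62 (W [1, 0])) [] < 1 := by decide +kernel
    have t3 : 0.38 * 1.62 ^ 2 < fv 1.62 (pv 1.62 (W [1, 0])) [] := by decide +kernel
    refine ⟨?_, ?_, ?_⟩
    · have h2 : ((0.9972 : ℚ) : ℝ) < ((fv 1.62 (pv 1.62 (W [1, 0])) [] : ℚ) : ℝ) := by
        exact_mod_cast t1
      refine lt_of_eq_of_lt ?_ h2
      norm_num
    · have h2 : ((fv 1.62 (pv 1.62 (W [1, 0])) [] : ℚ) : ℝ) < ((1 : ℚ) : ℝ) := by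
        exact_mod_cast t2
      refine lt_of_lt_of_eq h2 ?_
      norm_num
    · have h2 : ((0.38 * 1.62 ^ 2 : ℚ) : ℝ) < ((fv 1.62 (pv 1.62 (W [1, 0])) [] : ℚ) : ℝ) := by
        exact_mod_cast t3
      refine lt_of_eq_of_lt ?_ h2
      norm_num
  have hU : Un (1.62 : ℝ) z := by
    have := ep_un (q := 1.62) (by norm_num) (u := []) (v := W [1, 0]) (by decide) (by decide +kernel)
    have e3 : ((1.62 : ℚ) : ℝ) = 1.62 := by norm_num
    rw [e3] at this
    exact this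
  have hex : ∃ j : ℕ, P (qa : ℝ) z / (qa : ℝ) ^ (j + 2) < x := by
    have h5 : Tendsto (fun n : ℕ => P (qa : ℝ) z * (1 / (qa : ℝ)) ^ n) atTop
        (𝓝 (P (qa : ℝ) z * 0)) :=
      (tendsto_pow_atTop_nhds_zero_of_lt_one (by positivity)
        (by rw [div_lt_one (by linarith)]; exact hB')).const_mul _
    rw [mul_zero] at h5
    obtain ⟨n, hn⟩ := (h5.eventually_lt_const h0).exists
    refine ⟨n, lt_of_le_of_lt ?_ hn⟩
    rw [one_div_pow, mul_one_div]
    refine div_le_div_of_nonneg_left (P_nonneg hB' _) (by positivity) ?_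
    exact pow_le_pow_right₀ hB'.le (by omega)
  classical
  obtain ⟨j, hj1, hj2⟩ : ∃ j : ℕ, P (qa : ℝ) z / (qa : ℝ) ^ j < x ∧
      x < P 1.62 z / (1.62 : ℝ) ^ j := by
    have hs := Nat.find_spec hex
    rcases Nat.eq_zero_or_pos (Nat.find hex) with h | h
    · refine ⟨2, by rw [h] at hs; exact hs, ?_⟩
      rw [lt_div_iff₀ (by norm_num)]
      have := hBv.2.2
      nlinarith [this, h1]
    · obtain ⟨m, hm⟩ : ∃ m, Nat.find hex = m + 1 := ⟨Nat.find hex - 1, by omega⟩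
      have hmin := Nat.find_min hex (m := m) (by omega)
      push Not at hmin
      rw [hm] at hs
      refine ⟨m + 1 + 2, hs, lt_of_le_of_lt hmin ?_⟩
      rw [qa_eq, div_lt_div_iff₀ (by positivity) (by positivity)]
      rw [qa_eq] at hA
      have h6 : (1.62 : ℝ) ^ m ≤ 1.888443 ^ m := pow_le_pow_left₀ (by norm_num) (by norm_num) _
      have h7 : (1.62 : ℝ) ^ (m + 1 + 2) = 1.62 ^ m * 4.251528 := by ring
      have h8 : (1.888443 : ℝ) ^ (m + 2) = 1.888443 ^ m * 1.888443 ^ 2 := by ring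
      have h9 : (0 : ℝ) < 1.62 ^ m := by positivity
      have h10 : (3.56 : ℝ) < 1.888443 ^ 2 := by norm_num
      rw [h7, h8]
      have t0 := P_nonneg (q := 1.888443) (by norm_num) z
      calc P 1.888443 z * (1.62 ^ m * 4.251528) ≤ 0.736 * (1.62 ^ m * 4.251528) :=
            mul_le_mul_of_nonneg_right hA.le (by positivity)
        _ < 0.9972 * (1.62 ^ m * 3.56) := by nlinarith
        _ ≤ 0.9972 * (1.888443 ^ m * 1.888443 ^ 2) := by
            refine mul_le_mul_of_nonneg_left ?_ (by norm_num)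
            exact mul_le_mul h6 h10.le (by norm_num) (by positivity)
        _ ≤ P 1.62 z * (1.888443 ^ m * 1.888443 ^ 2) :=
            mul_le_mul_of_nonneg_right hBv.1.le (by positivity)
  have hq62 : (1 : ℝ) < 1.62 := by norm_num
  have hle : (1.62 : ℝ) ≤ qa := by rw [qa_eq]; norm_num
  obtain ⟨q', h3, h4, h5⟩ := P_ivt hq62 hle (zs z j) (y := x) (by rw [zs_P hB']; exact hj1)
    (by rw [zs_P hq62]; exact hj2)
  exact ⟨q', mem_Ux.2 ⟨by linarith, by linarith, _, h5,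
    (zs_un hq62 hU hBv.2.1 j).mono hq62 h3.le⟩, h4.le⟩

/-- the points below `0.618` -/
theorem left {x : ℝ} (h0 : 0 < x) (h1 : x < 0.618) : ∃ q ∈ Ux x, q ≤ (qa : ℝ) := by
  rcases lt_or_ge x (38 / 100) with h | h
  · exact small1 h0 h
  rcases lt_or_ge x (4 / 10) with h2 | h2
  · exact E11 (by push_cast; norm_num; linarith) (by push_cast; norm_num; linarith)
  · exact E10 (by push_cast; norm_num; linarith) (by push_cast; norm_num; linarith)

/-- the points above `0.61807` -/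
theorem right {x : ℝ} (h0 : 0.61807 < x) : ∃ q ∈ Ux x, q ≤ (qa : ℝ) := by
  rcases lt_or_ge x (61823 / 100000) with h1 | h1
  · exact E4 (by push_cast; norm_num at h0 ⊢; linarith) (by push_cast; norm_num; linarith)
  rcases lt_or_ge x (619 / 1000) with h2 | h2
  · exact E3 (by push_cast; norm_num; linarith) (by push_cast; norm_num; linarith)
  rcases lt_or_ge x (624 / 1000) with h3 | h3
  · exact E2 (by push_cast; norm_num; linarith) (by push_cast; norm_num; linarith)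
  rcases lt_or_ge x (648 / 1000) with h4 | h4
  · exact E1 (by push_cast; norm_num; linarith) (by push_cast; norm_num; linarith)
  rcases lt_or_ge x (71 / 100) with h5 | h5
  · exact E0 (by push_cast; norm_num; linarith) (by push_cast; norm_num; linarith)
  rcases lt_or_ge x (745 / 1000) with h5' | h5'
  · exact E7 (by push_cast; norm_num; linarith) (by push_cast; norm_num; linarith)
  rcases lt_or_ge x (95 / 100) with h6 | h6
  · exact E8 (by push_cast; norm_num; linarith) (by push_cast; norm_num; linarith)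
  rcases lt_or_ge x (12 / 10) with h7 | h7
  · exact E9 (by push_cast; norm_num; linarith) (by push_cast; norm_num; linarith)
  · have hx : 0 < 1 / x := by positivity
    have hx2 : 1 / x ≤ 1 / (12 / 10) := one_div_le_one_div_of_le (by norm_num) h7
    norm_num at hx2
    have hx3 : x⁻¹ = 1 / x := by rw [one_div]
    have hq : 1 < 1 + 1 / x := by linarith
    have hval : P (1 + 1 / x) (fun _ => true) = x := by
      rw [P_ones hq]
      field_simp
      ring
    refine ⟨1 + 1 / x, mem_Ux.2 ⟨hq, ?_, fun _ => true, hval, ?_⟩, ?_⟩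
    · linarith
    · intro n
      refine ⟨fun h => by simp at h, fun _ => ?_⟩
      have e : sh (n + 1) (fun _ => true) = fun _ => true := rfl
      rw [e, P_ones hq]
      linarith
    · rw [qa_eq]
      linarith

end Pool.Agent.U425.LV
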