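import Pool.Agent.U425.LV.Cov

/-!
# The level set at `Q`
-/

set_option autoImplicit false

namespace Pool.Agent.U425.LV

open Pool.Agent.R341.Uni Filter Topology

/-- the sequence `1000 1^∞` -/
def s0 : ℕ → Bool := glue 4 (ep (W [1,0,0,0]) (W [0])) (fun _ => true)

/-- the sequence `1001 0^∞` -/
def s1 : ℕ → Bool := glue 4 (ep (W [1,0,0,1]) (W [0])) (fun _ => false)

theorem P_s0 {p : ℝ} (hp : 1 < p) : P p s0 = R p := by
  have h := P_split hp s0 4
  have f0 : s0 0 = true := by simp [s0, glue, ep]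
  have f1 : s0 1 = false := by simp [s0, glue, ep]
  have f2 : s0 2 = false := by simp [s0, glue, ep]
  have f3 : s0 3 = false := by simp [s0, glue, ep]
  have e : sh 4 s0 = fun _ => true := sh_glue _ _ _
  rw [e, P_ones hp] at h
  simp only [Finset.sum_range_succ, Finset.sum_range_zero, f0, f1, f2, f3, dg_true, dg_false,
    zero_div, add_zero, zero_add] at h
  rw [h]
  unfold R
  have h1 : p ≠ 0 := by linarith
  have h2 : p - 1 ≠ 0 := by linarith
  field_simp

theorem P_s1 {p : ℝ} (hp : 1 < p) : P p s1 = 1 / p + 1 / p ^ 4 := by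
  have h := P_split hp s1 4
  have f0 : s1 0 = true := by simp [s1, glue, ep]
  have f1 : s1 1 = false := by simp [s1, glue, ep]
  have f2 : s1 2 = false := by simp [s1, glue, ep]
  have f3 : s1 3 = true := by simp [s1, glue, ep]
  have e : sh 4 s1 = fun _ => false := sh_glue _ _ _
  rw [e, P_zeros] at h
  simp only [Finset.sum_range_succ, Finset.sum_range_zero, f0, f1, f2, f3, dg_true, dg_false,
    zero_div, add_zero, zero_add] at h
  rw [h]
  norm_num

/-- nothing lies strictly between the two sequences -/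
theorem no_between {d : ℕ → Bool} (h1 : Lt s1 d) (h2 : Lt d s0) : False := by
  obtain ⟨a, a1, a2, a3⟩ := h1
  obtain ⟨b, b1, b2, b3⟩ := h2
  have f0 : s0 0 = true := by simp [s0, glue, ep]
  have f1 : s0 1 = false := by simp [s0, glue, ep]
  have f2 : s0 2 = false := by simp [s0, glue, ep]
  have f3 : s0 3 = false := by simp [s0, glue, ep]
  have g0 : s1 0 = true := by simp [s1, glue, ep]
  have g1 : s1 1 = false := by simp [s1, glue, ep]
  have g2 : s1 2 = false := by simp [s1, glue, ep]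
  have g3 : s1 3 = true := by simp [s1, glue, ep]
  have ha0 : a ≠ 0 := by rintro rfl; rw [g0] at a2; exact absurd a2 (by decide)
  have hb1 : b ≠ 1 := by rintro rfl; rw [f1] at b3; exact absurd b3 (by decide)
  have hb2 : b ≠ 2 := by rintro rfl; rw [f2] at b3; exact absurd b3 (by decide)
  have hb3 : b ≠ 3 := by rintro rfl; rw [f3] at b3; exact absurd b3 (by decide)
  have hd0 : d 0 = true := by rw [← a1 0 (by omega)]; exact g0
  have hb0 : b ≠ 0 := by rintro rfl; rw [hd0] at b2; exact absurd b2 (by decide)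
  have hd1 : d 1 = false := by rw [b1 1 (by omega)]; exact f1
  have hd2 : d 2 = false := by rw [b1 2 (by omega)]; exact f2
  have hd3 : d 3 = false := by rw [b1 3 (by omega)]; exact f3
  have ha1 : a ≠ 1 := by rintro rfl; rw [hd1] at a3; exact absurd a3 (by decide)
  have ha2 : a ≠ 2 := by rintro rfl; rw [hd2] at a3; exact absurd a3 (by decide)
  have ha3 : a ≠ 3 := by rintro rfl; rw [hd3] at a3; exact absurd a3 (by decide)
  have := a1 3 (by omega)
  rw [g3, hd3] at this
  exact absurd this (by decide)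

theorem not_mem_gap {p x : ℝ} (h1 : 1 / p + 1 / p ^ 4 < x) (h2 : x < R p) : p ∉ Ux x := by
  intro h
  obtain ⟨hp, _, d, hd, hU⟩ := mem_Ux.1 h
  have l1 : Lt s1 d := by
    rcases trich s1 d with h3 | h3 | h3
    · have := P_s1 hp
      rw [h3, hd] at this
      linarith
    · exact h3
    · have := hU.lt_left hp h3
      rw [P_s1 hp, hd] at this
      linarith
  have l2 : Lt d s0 := by
    rcases trich d s0 with h3 | h3 | h3
    · have := P_s0 hp
      rw [← h3, hd] at this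
      linarith
    · exact h3
    · have := hU.lt_right hp h3
      rw [P_s0 hp, hd] at this
      linarith
  exact no_between l1 l2

theorem R_cont {Q : ℝ} (hQ : 1 < Q) : ContinuousAt R Q := by
  have h1 : Q ≠ 0 := by linarith
  have h2 : Q ^ 4 * (Q - 1) ≠ 0 := mul_ne_zero (by positivity) (by linarith)
  unfold R
  fun_prop (disch := assumption)

theorem gap {Q : ℝ} (hQ : Base Q) {x : ℝ} (h1 : 0.61 < x) (h2 : x < R Q) :
    ∃ δ > 0, ∀ p, Q ≤ p → p < Q + δ → p ∉ Ux x := by
  have hQ1 := hQ.one_lt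
  have hev : ∀ᶠ p in 𝓝 Q, x < R p := (R_cont hQ1).eventually (lt_mem_nhds h2)
  obtain ⟨δ, hδ, hb⟩ := Metric.eventually_nhds_iff.1 hev
  refine ⟨δ, hδ, fun p hp1 hp2 => not_mem_gap ?_ (hb ?_)⟩
  · have hlo := hQ.lo
    have a1 : 1 / p ≤ 1 / 1.888443 := one_div_le_one_div_of_le (by norm_num) (by linarith)
    have a2 : 1 / p ^ 4 ≤ 1 / 1.888443 ^ 4 :=
      one_div_le_one_div_of_le (by norm_num) (pow_le_pow_left₀ (by norm_num) (by linarith) 4)
    have a3 : (1 : ℝ) / 1.888443 + 1 / 1.888443 ^ 4 < 0.61 := by norm_num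
    linarith
  · rw [Real.dist_eq, abs_lt]
    constructor <;> linarith

theorem R_lb {Q : ℝ} (hQ : Base Q) : 0.6180382 < R Q := by
  have hlo := hQ.lo
  have hhi := hQ.hi
  unfold R
  have a1 : 1 / 1.888444 ≤ 1 / Q := one_div_le_one_div_of_le (by linarith) (by linarith)
  have a2 : 1 / (1.888444 ^ 4 * (1.888444 - 1)) ≤ 1 / (Q ^ 4 * (Q - 1)) := by
    refine one_div_le_one_div_of_le (mul_pos (by positivity) (by linarith)) ?_
    exact mul_le_mul (pow_le_pow_left₀ (by linarith) hhi.le 4) (by linarith) (by linarith)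
      (by positivity)
  have a3 : (0.6180382 : ℝ) < 1 / 1.888444 + 1 / (1.888444 ^ 4 * (1.888444 - 1)) := by norm_num
  linarith

theorem near_lb {Q : ℝ} (hQ : Base Q) : 0.618072 < R Q + en Q 0 / 2 := by
  have h := R_lb hQ
  have hhi := hQ.hi
  have hQ1 := hQ.one_lt
  have q13 : Q ^ 13 ≤ 3885 := by
    calc Q ^ 13 ≤ 1.888444 ^ 13 := pow_le_pow_left₀ (by linarith) hhi.le 13
      _ ≤ 3885 := by norm_num
  have h0 := hQ.e0.1
  norm_num at h0
  rw [en_eq hQ]
  have e : 13 * (0 / 5 + 1) = 13 := by norm_num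
  have e' : 0 % 5 = 0 := rfl
  rw [e, e']
  have h3 : 0.2641 / 3885 ≤ (1 - P Q (tau 0)) / Q ^ 13 :=
    div_le_div₀ (by linarith) (by linarith) (by positivity) q13
  have h4 : (0.00006797 : ℝ) < 0.2641 / 3885 := by norm_num
  linarith

/-- only `R Q` can have the smallest univoque base `Q` -/
theorem level {Q : ℝ} (hQ : Base Q) {x : ℝ} (h0 : 0 < x) (hs : sInf (Ux x) = Q) : x = R Q := by
  have hqa : (qa : ℝ) < Q := by rw [qa_eq]; exact hQ.lo
  have hno : ∀ p ∈ Ux x, Q ≤ p := fun p hp => by rw [← hs]; exact csInf_le (bdd_Ux x) hp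
  have hno' : ¬ ∃ p ∈ Ux x, p ≤ (qa : ℝ) := by
    rintro ⟨p, h1, h2⟩
    have := hno p h1
    linarith
  have hno'' : ¬ ∃ p ∈ Ux x, p < Q := by
    rintro ⟨p, h1, h2⟩
    have := hno p h1
    linarith
  rcases lt_or_ge x 0.618 with h1 | h1
  · exact absurd (left h0 h1) hno'
  rcases lt_or_ge (0.61807 : ℝ) x with h2 | h2
  · exact absurd (right h2) hno'
  rcases lt_trichotomy x (R Q) with h3 | h3 | h3
  · exfalso
    obtain ⟨δ, hδ, hg⟩ := gap hQ (by linarith) h3
    obtain ⟨q', hq', _⟩ := F1 h0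
    obtain ⟨p, hp1, hp2⟩ := exists_lt_of_csInf_lt ⟨q', hq'⟩
      (show sInf (Ux x) < Q + δ by rw [hs]; linarith)
    exact hg p (hno p hp1) hp2 hp1
  · exact h3
  · exact absurd (near hQ h3 (by have := near_lb hQ; linarith)) hno''

/-- `Q` is a limit of univoque bases of `1` -/
theorem mem_clos {Q : ℝ} (hQ : Base Q) : Q ∈ closure (Ux 1) := by
  rw [Metric.mem_closure_iff]
  intro ε hε
  have hQ1 := hQ.one_lt
  have hlo := hQ.lo
  have hhi := hQ.hi
  obtain ⟨a, ha⟩ : ∃ a, a = max 1.888 (Q - ε) := ⟨_, rfl⟩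
  have ha1 : 1.888 ≤ a := by rw [ha]; exact le_max_left _ _
  have ha2 : Q - ε ≤ a := by rw [ha]; exact le_max_right _ _
  have ha3 : a < Q := by rw [ha]; exact max_lt (by linarith) (by linarith)
  have ha4 : 1 < a := by linarith
  have hB : 1 < P a B := by
    rw [← hQ.one]
    exact P_strict ha4 ha3 B (n := 0) (by decide)
  have ha5 : 0 < a - 1 := by linarith
  obtain ⟨i, hi⟩ := exists_pow_lt_of_lt_one (show 0 < (P a B - 1) * (a - 1) from
    mul_pos (by linarith) ha5) (show 1 / a < 1 by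
      rw [div_lt_one (by linarith)]; exact ha4)
  have hP : 1 < P a (G (i + 1) (tau 0)) := by
    have h := P_agree ha4 (d := B) (e := G (i + 1) (tau 0)) (L := 13 * (i + 1))
      (fun j hj => (G_lt _ hj).symm)
    have h2 : 1 / (a - 1) / a ^ (13 * (i + 1)) < P a B - 1 := by
      rw [div_div, div_lt_iff₀ (mul_pos ha5 (by positivity))]
      rw [one_div_pow, div_lt_iff₀ (by positivity)] at hi
      have h3 : a ^ i ≤ a ^ (13 * (i + 1)) := pow_le_pow_right₀ ha4.le (by omega)
      calc (1 : ℝ) < (P a B - 1) * (a - 1) * a ^ i := hi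
        _ ≤ (P a B - 1) * (a - 1) * a ^ (13 * (i + 1)) :=
            mul_le_mul_of_nonneg_left h3 (mul_nonneg (by linarith) ha5.le)
        _ = (P a B - 1) * ((a - 1) * a ^ (13 * (i + 1))) := by ring
    linarith
  obtain ⟨q, h1, h2, h3⟩ := exists_q hQ (i := i + 1) (k := 0) (by norm_num) ha4 ha3 hP
  refine ⟨q, mem_U1 (by omega) 0 (by linarith) (by linarith) h3, ?_⟩
  rw [Real.dist_eq, abs_lt]
  constructor <;> linarith

/-- `Q` is below the maximum of the smallest univoque base -/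
theorem le_max {Q : ℝ} (hQ : Base Q) :
    Q ≤ sSup ((fun x : ℝ => sInf (Ux x)) '' Set.Ioi 0) := by
  have hbdd : ∀ x : ℝ, 0 < x → sInf (Ux x) ≤ (BB : ℝ) := fun x hx => by
    obtain ⟨q', h1, h2⟩ := F1 hx
    exact (csInf_le (bdd_Ux x) h1).trans h2
  have hBA : BddAbove ((fun x : ℝ => sInf (Ux x)) '' Set.Ioi 0) := by
    refine ⟨(BB : ℝ), ?_⟩
    rintro _ ⟨x, hx, rfl⟩
    exact hbdd x hx
  have h5 : (0 : ℝ) ≤ Real.sqrt 5 := Real.sqrt_nonneg 5
  have h5' : Real.sqrt 5 ^ 2 = 5 := Real.sq_sqrt (by norm_num)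
  set c : ℝ := (Real.sqrt 5 - 1) / 2 with hc
  have hc0 : 0 < c := by
    have : 1 < Real.sqrt 5 := by nlinarith
    rw [hc]; linarith
  have hc1 : c ^ 2 + c = 1 := by rw [hc]; nlinarith
  obtain ⟨q', hq'1, hq'2⟩ := F1 hc0
  have hL : (LL : ℝ) ≤ sInf (Ux c) := le_csInf ⟨q', hq'1⟩ fun r hr => F3 hc0 hc1 hr
  have hm : sInf (Ux c) ≤ sSup ((fun x : ℝ => sInf (Ux x)) '' Set.Ioi 0) :=
    le_csSup hBA ⟨c, hc0, rfl⟩
  have hLL : (LL : ℝ) = 1.888444 := by unfold LL; norm_num
  have := hQ.hi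
  linarith

end Pool.Agent.U425.LV
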