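import Pool.Agent.R341.Uni17

/-!
# Sequences `b ^ i τ`: the lexicographic conditions
-/

set_option autoImplicit false

namespace Pool.Agent.U425.LV

open Pool.Agent.R341.Uni

/-- the word `1110011100110` -/
def bw : List Bool := W [1,1,1,0,0,1,1,1,0,0,1,1,0]

/-- the periodic sequence `(1110011100110)^∞` -/
def B : ℕ → Bool := ep [] bw

theorem B_eq (n : ℕ) : B n = bw.getD (n % 13) false := by
  unfold B ep
  rw [if_neg (by simp)]
  simp [bw]

theorem B_add (i n : ℕ) : B (13 * i + n) = B n := by
  rw [B_eq, B_eq, Nat.mul_add_mod]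

/-- smaller than `B` within the first thirteen digits -/
def Sm (c : ℕ → Bool) : Prop := ∃ k < 13, (∀ i < k, c i = B i) ∧ c k = false ∧ B k = true

instance (c : ℕ → Bool) : Decidable (Sm c) := by
  unfold Sm
  infer_instance

theorem Sm.congr {c d : ℕ → Bool} (h : Sm c) (hcd : ∀ i < 13, d i = c i) : Sm d := by
  obtain ⟨k, hk, h1, h2, h3⟩ := h
  exact ⟨k, hk, fun i hi => by rw [hcd i (by omega), h1 i hi], by rw [hcd k hk, h2], h3⟩

/-- `i` periods of `B`, followed by `τ` -/
def G (i : ℕ) (τ : ℕ → Bool) : ℕ → Bool := glue (13 * i) B τ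

/-- the finite conditions on the tail `τ` -/
structure Tok (τ : ℕ → Bool) : Prop where
  s3 : Sm τ
  s2 : ∀ r < 12, Sm (fun i => xor (glue 13 B τ (r + 1 + i)) (B r))
  s4 : ∀ m, Sm (fun i => xor (τ (m + 1 + i)) (τ m))

theorem t1 : ∀ r < 12, Sm (fun i => xor (B (r + 1 + i)) (B r)) := by decide

theorem G_lt {i n : ℕ} (τ : ℕ → Bool) (h : n < 13 * i) : G i τ n = B n := glue_lt _ _ h

theorem G_ge {i n : ℕ} (τ : ℕ → Bool) : G i τ (13 * i + n) = τ n := by
  unfold G glue
  rw [if_neg (by omega)]
  congr 1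
  omega

theorem kp_of_sm {g : ℕ → Bool} (hg : ∀ l < 13, g l = B l) {n : ℕ}
    (h : Sm (fun l => xor (g (n + 1 + l)) (g n))) :
    Kp (cons false g) (sh (n + 1) (cons false g)) := by
  obtain ⟨k, hk, h1, h2, h3⟩ := h
  have hc : ∀ l, cons false g (n + 1 + l) = g (n + l) := fun l => by
    unfold cons
    rw [if_neg (by omega)]
    congr 1
    omega
  refine ⟨k + 1, fun i hi => ?_, ?_, ?_⟩
  · rw [sh_apply, sh_apply, hc, hc, add_zero]
    rcases i with _ | l
    · simp [cons]
    · have h4 := h1 l (by omega)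
      have h5 : cons false g (l + 1) = g l := by simp [cons]
      rw [h5, hg l (by omega), ← h4, show n + (l + 1) = n + 1 + l by ring]
  · rw [sh_apply, sh_apply, hc, hc, add_zero, show n + (k + 1) = n + 1 + k by ring]
    exact h2
  · have h5 : cons false g (k + 1) = g k := by simp [cons]
    rw [h5, hg k hk, h3]

theorem kp_G {i : ℕ} (hi : 1 ≤ i) {τ : ℕ → Bool} (ht : Tok τ) (n : ℕ) :
    Kp (cons false (G i τ)) (sh (n + 1) (cons false (G i τ))) := by
  have hg : ∀ l < 13, G i τ l = B l := fun l hl => G_lt τ (by omega)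
  rcases Nat.lt_or_ge n (13 * i) with hn | hn
  · obtain ⟨j, r, hr, rfl⟩ : ∃ j r, r < 13 ∧ n = 13 * j + r :=
      ⟨n / 13, n % 13, Nat.mod_lt _ (by norm_num), (Nat.div_add_mod n 13).symm⟩
    have hn0 : G i τ (13 * j + r) = B r := by rw [G_lt τ hn, B_add]
    rcases Nat.lt_or_ge r 12 with hr2 | hr2
    · apply kp_of_sm hg
      rcases Nat.lt_or_ge (j + 1) i with hj | hj
      · refine (t1 r hr2).congr fun l hl => ?_
        rw [hn0, G_lt τ (by omega), show 13 * j + r + 1 + l = 13 * j + (r + 1 + l) by ring, B_add]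
      · have hij : i = j + 1 := by omega
        refine (ht.s2 r hr2).congr fun l hl => ?_
        rw [hn0]
        congr 1
        rcases Nat.lt_or_ge (r + 1 + l) 13 with h | h
        · rw [glue_lt _ _ h, G_lt τ (by omega),
            show 13 * j + r + 1 + l = 13 * j + (r + 1 + l) by ring, B_add]
        · have e : 13 * j + r + 1 + l = 13 * i + (r + 1 + l - 13) := by omega
          rw [e, G_ge]
          unfold glue
          rw [if_neg (by omega)]
    · have hr3 : r = 12 := by omega
      subst hr3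
      have hB12 : B 12 = false := by decide
      obtain ⟨k, hk, h1, h2, h3⟩ := ht.s3
      have hc : ∀ l, cons false (G i τ) (13 * j + 12 + 1 + l) = G i τ (13 * j + 12 + l) :=
        fun l => by
          unfold cons
          rw [if_neg (by omega)]
          congr 1
          omega
      have hj : j + 1 ≤ i := by omega
      obtain ⟨d, hd⟩ : ∃ d, i = j + 1 + d := ⟨i - (j + 1), by omega⟩
      refine ⟨13 * d + k + 1, fun l hl => ?_, ?_, ?_⟩
      · rw [sh_apply, sh_apply, hc, hc, add_zero, hn0, hB12, Bool.xor_false]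
        rcases l with _ | l
        · simp only [add_zero, cons_zero]
          rw [hn0, hB12]
        · have h5 : cons false (G i τ) (l + 1) = G i τ l := by simp [cons]
          rw [h5]
          rcases Nat.lt_or_ge l (13 * d) with h | h
          · rw [G_lt τ (by omega), G_lt τ (by omega),
              show 13 * j + 12 + (l + 1) = 13 * (j + 1) + l by ring, B_add]
          · obtain ⟨l', rfl⟩ : ∃ l', l = 13 * d + l' := ⟨l - 13 * d, by omega⟩
            rw [show 13 * j + 12 + (13 * d + l' + 1) = 13 * i + l' by omega, G_ge,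
              h1 l' (by omega), G_lt τ (by omega), B_add]
      · rw [sh_apply, sh_apply, hc, hc, add_zero, hn0, hB12, Bool.xor_false,
          show 13 * j + 12 + (13 * d + k + 1) = 13 * i + k by omega, G_ge, h2]
      · have h5 : cons false (G i τ) (13 * d + k + 1) = G i τ (13 * d + k) := by simp [cons]
        rw [h5, G_lt τ (by omega), B_add, h3]
  · apply kp_of_sm hg
    obtain ⟨m, rfl⟩ : ∃ m, n = 13 * i + m := ⟨n - 13 * i, by omega⟩
    refine (ht.s4 m).congr fun l _ => ?_
    rw [G_ge, show 13 * i + m + 1 + l = 13 * i + (m + 1 + l) by ring, G_ge]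

/-- the tails -/
def pre : ℕ → List Bool
  | 0 => W []
  | 1 => W [1,1,0,1]
  | 2 => W [1,1,1,0,0,1,0]
  | 3 => W [1,1,1,0,0,1,1,0,1]
  | _ => W [1,1,1,0,0,1,1,1,0,0,1,0]

/-- the tails `τ` -/
def tau (k : ℕ) : ℕ → Bool := ep (pre k) (W [1, 0])

theorem tau_per (u : List Bool) (hu : u.length ≤ 12) (m : ℕ) (hm : 12 ≤ m) :
    ep u (W [1, 0]) (m + 2) = ep u (W [1, 0]) m := by
  unfold ep
  rw [if_neg (by omega), if_neg (by omega)]
  congr 1
  have e : (W [1, 0]).length = 2 := by decide
  rw [e]
  omega

theorem tok_of {u : List Bool} (hu : u.length ≤ 12) (h3 : Sm (ep u (W [1, 0])))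
    (h2 : ∀ r < 12, Sm (fun i => xor (glue 13 B (ep u (W [1, 0])) (r + 1 + i)) (B r)))
    (h4 : ∀ m < 14, Sm (fun i => xor (ep u (W [1, 0]) (m + 1 + i)) (ep u (W [1, 0]) m))) :
    Tok (ep u (W [1, 0])) := by
  refine ⟨h3, h2, fun m => ?_⟩
  induction m using Nat.strong_induction_on with
  | _ m ih =>
    rcases Nat.lt_or_ge m 14 with hm | hm
    · exact h4 m hm
    · refine (ih (m - 2) (by omega)).congr fun i _ => ?_
      have e1 := tau_per u hu (m - 2) (by omega)
      have e2 := tau_per u hu (m - 2 + 1 + i) (by omega)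
      rw [show m - 2 + 2 = m by omega] at e1
      rw [show m - 2 + 1 + i + 2 = m + 1 + i by omega] at e2
      rw [e1, e2]

theorem tok_tau (k : ℕ) : Tok (tau k) := by
  rcases k with _ | _ | _ | _ | k
  · exact tok_of (by decide) (by decide) (by decide) (by decide)
  · exact tok_of (by decide) (by decide) (by decide) (by decide)
  · exact tok_of (by decide) (by decide) (by decide) (by decide)
  · exact tok_of (by decide) (by decide) (by decide) (by decide)
  · exact tok_of (u := W [1,1,1,0,0,1,1,1,0,0,1,0]) (by decide) (by decide) (by decide) (by decide)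

/-- the sequence `1001` followed by the complement of `g` -/
def F (g : ℕ → Bool) : ℕ → Bool := glue 4 (ep (W [1,0,0,1]) (W [0])) (fun j => !g j)

theorem F_ge (g : ℕ → Bool) (n : ℕ) : F g (4 + n) = !g n := by
  unfold F glue
  rw [if_neg (by omega), show 4 + n - 4 = n by omega]

theorem sh_F (g : ℕ → Bool) : sh 4 (F g) = fun j => !g j := sh_glue _ _ _

theorem kp_F {g : ℕ → Bool} (hg : ∀ l < 13, g l = B l)
    (h : ∀ n, Kp (cons false g) (sh (n + 1) (cons false g))) (m : ℕ) :
    Kp (cons false g) (sh m (F g)) ∨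
      ∀ i, xor (F g (m + i)) (F g m) = cons false g i := by
  have g0 : g 0 = true := by rw [hg 0 (by norm_num)]; decide
  have g1 : g 1 = true := by rw [hg 1 (by norm_num)]; decide
  have g2 : g 2 = true := by rw [hg 2 (by norm_num)]; decide
  have f0 : F g 0 = true := by simp [F, glue, ep]
  have f1 : F g 1 = false := by simp [F, glue, ep]
  have f2 : F g 2 = false := by simp [F, glue, ep]
  have f3 : F g 3 = true := by simp [F, glue, ep]
  have f4 : F g 4 = false := by
    have := F_ge g 0
    rw [add_zero] at this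
    rw [this, g0]; rfl
  have c1 : cons false g 1 = true := by simp [cons, g0]
  have c2 : cons false g 2 = true := by simp [cons, g1]
  have c3 : cons false g 3 = true := by simp [cons, g2]
  rcases m with _ | _ | _ | _ | m
  · left
    refine ⟨3, fun i hi => ?_, ?_, c3⟩
    · rw [sh_apply, sh_apply]
      interval_cases i
      · simp
      · simp [f0, f1, c1]
      · simp [f0, f2, c2]
    · rw [sh_apply, sh_apply]
      simp [f0, f3]
  · left
    refine ⟨1, fun i hi => ?_, ?_, c1⟩
    · rw [sh_apply, sh_apply]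
      interval_cases i
      simp
    · rw [sh_apply, sh_apply]
      simp [f1, f2]
  · left
    refine ⟨2, fun i hi => ?_, ?_, c2⟩
    · rw [sh_apply, sh_apply]
      interval_cases i
      · simp
      · simp [f2, f3, c1]
    · rw [sh_apply, sh_apply]
      simp [f2, f4]
  · right
    intro i
    rcases i with _ | i
    · simp
    · have := F_ge g i
      rw [show 0 + 1 + 1 + 1 + (i + 1) = 4 + i by ring, this]
      simp [f3, cons]
  · left
    have h1 := (h m).compl
    have e : sh (m + 1 + 1 + 1 + 1) (F g) = fun i => !(sh (m + 1) (cons false g) i) := by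
      funext i
      rw [sh_apply, sh_apply, show m + 1 + 1 + 1 + 1 + i = 4 + (m + i) by ring, F_ge]
      unfold cons
      rw [if_neg (by omega), show m + 1 + i - 1 = m + i by omega]
    rw [e]
    exact h1

/-- unique expansions `1001 \bar g` -/
theorem un_F {i : ℕ} (hi : 1 ≤ i) (k : ℕ) {p : ℝ} (hp : 1 < p) (h1 : P p (G i (tau k)) < 1) :
    Un p (F (G i (tau k))) := by
  refine lexnum2 hp (t := cons false (G i (tau k))) rfl (by rw [sh_cons]; exact h1) ?_
  exact kp_F (fun l hl => G_lt _ (by omega)) (kp_G hi (tok_tau k))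

/-- univoque bases of `1` -/
theorem mem_U1 {i : ℕ} (hi : 1 ≤ i) (k : ℕ) {p : ℝ} (hp : 1 < p) (hp2 : p ≤ 2)
    (h1 : P p (G i (tau k)) = 1) : p ∈ Ux 1 := by
  have hA : Adm (cons false (G i (tau k))) := by
    refine ⟨rfl, fun m hm => ?_⟩
    obtain ⟨n, rfl⟩ : ∃ n, m = n + 1 := ⟨m - 1, by omega⟩
    exact kp_G hi (tok_tau k) n
  refine mem_Ux.2 ⟨hp, hp2, _, h1, ?_⟩
  refine lexnum hp (t := cons false (G i (tau k))) rfl (fun m => hA.inf m)
    (by rw [sh_cons]; exact h1) fun m => ?_
  have := hA.2 (m + 1) (by omega)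
  have e : sh m (G i (tau k)) = sh (m + 1) (cons false (G i (tau k))) := by
    funext j
    rw [sh_apply, sh_apply]
    unfold cons
    rw [if_neg (by omega), show m + 1 + j - 1 = m + j by omega]
  rw [e]
  exact this

end Pool.Agent.U425.LV
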