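import Pool.Agent.U425.LV.Lex

/-!
# Numerical estimates at the base `Q` with `P Q B = 1`
-/

set_option autoImplicit false

namespace Pool.Agent.U425.LV

open Pool.Agent.R341.Uni

/-- lower bound for the base -/
def qa : ℚ := 1888443 / 1000000

/-- upper bound for the base -/
def qb : ℚ := 1888444 / 1000000

theorem qa_eq : ((qa : ℚ) : ℝ) = 1.888443 := by unfold qa; norm_num

theorem qb_eq : ((qb : ℚ) : ℝ) = 1.888444 := by unfold qb; norm_num

theorem lt_val {q r : ℚ} (hq : 1 < q) {u v : List Bool} (hv : 1 ≤ v.length)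
    (h : r < fv q (pv q v) u) : (r : ℝ) < P (q : ℝ) (ep u v) := by
  rw [ep_val hq hv]
  exact_mod_cast h

theorem val_lt {q r : ℚ} (hq : 1 < q) {u v : List Bool} (hv : 1 ≤ v.length)
    (h : fv q (pv q v) u < r) : P (q : ℝ) (ep u v) < (r : ℝ) := by
  rw [ep_val hq hv]
  exact_mod_cast h

/-- the base with the quasi-greedy expansion `B` of `1` -/
structure Base (Q : ℝ) : Prop where
  lo : 1.888443 < Q
  hi : Q < 1.888444
  one : P Q B = 1

theorem exists_base : ∃ Q, Base Q := by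
  have h1 : P (qb : ℝ) B < ((1 : ℚ) : ℝ) := val_lt (by unfold qb; norm_num) (by decide) (by decide +kernel)
  have h2 : ((1 : ℚ) : ℝ) < P (qa : ℝ) B := lt_val (by unfold qa; norm_num) (by decide) (by decide +kernel)
  rw [Rat.cast_one] at h1 h2
  obtain ⟨Q, h3, h4, h5⟩ := P_ivt (a := (qa : ℝ)) (b := (qb : ℝ)) (by rw [qa_eq]; norm_num)
    (by rw [qa_eq, qb_eq]; norm_num) B h1 h2
  rw [qa_eq] at h3
  rw [qb_eq] at h4
  exact ⟨Q, h3, h4, h5⟩

section

variable {Q : ℝ} (hQ : Base Q)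

include hQ

theorem Base.one_lt : 1 < Q := by linarith [hQ.lo]

theorem Base.PG (i : ℕ) (τ : ℕ → Bool) : 1 - P Q (G i τ) = (1 - P Q τ) / Q ^ (13 * i) := by
  have h := diff_eq hQ.one_lt (d := B) (e := G i τ) (p := 13 * i)
    (fun j hj => (G_lt τ hj).symm)
  have e1 : sh (13 * i) (G i τ) = τ := sh_glue _ _ _
  have e2 : sh (13 * i) B = B := by
    funext j
    rw [sh_apply, B_add]
  rw [e1, e2, hQ.one] at h
  have : 1 - P Q (G i τ) = -(P Q (G i τ) - 1) := by ring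
  rw [this, h]
  ring

theorem Base.tau_bd {u v : List Bool} (hv : 1 ≤ v.length) {r s : ℚ}
    (h1 : fv qa (pv qa v) u < 1 - r) (h2 : 1 - s < fv qb (pv qb v) u) :
    (r : ℝ) < 1 - P Q (ep u v) ∧ 1 - P Q (ep u v) < s := by
  have a1 := val_lt (r := 1 - r) (by unfold qa; norm_num) hv h1
  have a2 := lt_val (r := 1 - s) (by unfold qb; norm_num) hv h2
  have b1 := P_anti (q := (qa : ℝ)) (q' := Q) (by rw [qa_eq]; norm_num)
    (by rw [qa_eq]; exact hQ.lo.le) (ep u v)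
  have b2 := P_anti (q := Q) (q' := (qb : ℝ)) hQ.one_lt (by rw [qb_eq]; exact hQ.hi.le) (ep u v)
  push_cast at a1 a2
  constructor <;> linarith

theorem Base.e0 : ((0.2641 : ℚ) : ℝ) < 1 - P Q (tau 0) ∧ 1 - P Q (tau 0) < ((0.2642 : ℚ) : ℝ) :=
  hQ.tau_bd (by decide) (by decide +kernel) (by decide +kernel)

theorem Base.e1 : ((0.05356 : ℚ) : ℝ) < 1 - P Q (tau 1) ∧ 1 - P Q (tau 1) < ((0.05357 : ℚ) : ℝ) :=
  hQ.tau_bd (by decide) (by decide +kernel) (by decide +kernel)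

theorem Base.e2 : ((0.01092 : ℚ) : ℝ) < 1 - P Q (tau 2) ∧ 1 - P Q (tau 2) < ((0.01093 : ℚ) : ℝ) :=
  hQ.tau_bd (by decide) (by decide +kernel) (by decide +kernel)

theorem Base.e3 : ((0.00216 : ℚ) : ℝ) < 1 - P Q (tau 3) ∧ 1 - P Q (tau 3) < ((0.002162 : ℚ) : ℝ) :=
  hQ.tau_bd (by decide) (by decide +kernel) (by decide +kernel)

theorem Base.e4 : ((0.0003849 : ℚ) : ℝ) < 1 - P Q (tau 4) ∧
    1 - P Q (tau 4) < ((0.000386 : ℚ) : ℝ) :=
  hQ.tau_bd (u := W [1,1,1,0,0,1,1,1,0,0,1,0]) (by decide) (by decide +kernel) (by decide +kernel)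

end

theorem pow_diff_le {a z A : ℝ} (hz : 0 ≤ z) (hza : z ≤ a) (haA : a ≤ A) (n : ℕ) :
    a ^ (n + 1) - z ^ (n + 1) ≤ (n + 1) * A ^ n * (a - z) := by
  have hD : 0 ≤ a - z := by linarith
  have ha : 0 ≤ a := hz.trans hza
  induction n with
  | zero => simp
  | succ n ih =>
    have e : a ^ (n + 1 + 1) - z ^ (n + 1 + 1) = a * (a ^ (n + 1) - z ^ (n + 1)) +
        z ^ (n + 1) * (a - z) := by ring
    rw [e]
    have h1 : z ^ (n + 1) ≤ A ^ (n + 1) := pow_le_pow_left₀ hz (hza.trans haA) _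
    have h2 : 0 ≤ a ^ (n + 1) - z ^ (n + 1) := by
      have := pow_le_pow_left₀ hz hza (n + 1)
      linarith
    have h3 : a * (a ^ (n + 1) - z ^ (n + 1)) ≤ A * ((n + 1) * A ^ n * (a - z)) :=
      mul_le_mul haA ih h2 (ha.trans haA)
    have h4 : z ^ (n + 1) * (a - z) ≤ A ^ (n + 1) * (a - z) := mul_le_mul_of_nonneg_right h1 hD
    calc a * (a ^ (n + 1) - z ^ (n + 1)) + z ^ (n + 1) * (a - z)
        ≤ A * ((n + 1) * A ^ n * (a - z)) + A ^ (n + 1) * (a - z) := by linarith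
      _ = ((n + 1 : ℕ) + 1) * A ^ (n + 1) * (a - z) := by push_cast; ring

/-- the upper end of the gap after `100` -/
noncomputable def R (p : ℝ) : ℝ := 1 / p + 1 / (p ^ 4 * (p - 1))

theorem B_vals : B 0 = true ∧ B 1 = true ∧ B 2 = true ∧ B 3 = false ∧ B 4 = false ∧ B 5 = true ∧
    B 6 = true ∧ B 7 = true ∧ B 8 = false ∧ B 9 = false ∧ B 10 = true ∧ B 11 = true ∧
    B 12 = false := by decide

theorem sum13 {g : ℕ → Bool} (hg : ∀ l < 13, g l = B l) (q : ℝ) :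
    ∑ i ∈ Finset.range 13, dg (g i) / q ^ (i + 1) =
      1 / q ^ 1 + 1 / q ^ 2 + 1 / q ^ 3 + 1 / q ^ 6 + 1 / q ^ 7 + 1 / q ^ 8 + 1 / q ^ 11 +
        1 / q ^ 12 := by
  obtain ⟨b0, b1, b2, b3, b4, b5, b6, b7, b8, b9, b10, b11, b12⟩ := B_vals
  simp only [Finset.sum_range_succ, Finset.sum_range_zero, hg 0 (by norm_num),
    hg 1 (by norm_num), hg 2 (by norm_num), hg 3 (by norm_num), hg 4 (by norm_num),
    hg 5 (by norm_num), hg 6 (by norm_num), hg 7 (by norm_num), hg 8 (by norm_num),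
    hg 9 (by norm_num), hg 10 (by norm_num), hg 11 (by norm_num), hg 12 (by norm_num),
    b0, b1, b2, b3, b4, b5, b6, b7, b8, b9, b10, b11, b12, dg_true, dg_false, zero_div, add_zero,
    zero_add]

/-- the increment of `P` is at most `3.5 (1/q - 1/Q)` -/
theorem P_inc {Q : ℝ} (hQ : Base Q) {q : ℝ} (h1 : 1.888 ≤ q) (h2 : q < Q) {g : ℕ → Bool}
    (hg : ∀ l < 13, g l = B l) : P q g - P Q g ≤ 3.5 * (1 / q - 1 / Q) := by
  have hq1 : 1 < q := by linarith
  have hQ1 := hQ.one_lt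
  have hlo := hQ.lo
  have hhi := hQ.hi
  rw [P_split hq1 g 13, P_split hQ1 g 13, sum13 hg, sum13 hg]
  set h := sh 13 g with hh
  obtain ⟨a, ha⟩ : ∃ a, a = 1 / q := ⟨_, rfl⟩
  obtain ⟨z, hz⟩ : ∃ z, z = 1 / Q := ⟨_, rfl⟩
  have ha0 : 0 < a := by rw [ha]; positivity
  have hz0 : 0 < z := by rw [hz]; positivity
  have haz : z < a := by
    rw [ha, hz]
    exact one_div_lt_one_div_of_lt (by linarith) h2
  have haA : a ≤ 0.52967 := by
    rw [ha, div_le_iff₀ (by linarith)]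
    nlinarith
  have hpow : ∀ (x : ℝ) (n : ℕ), 1 / x ^ n = (1 / x) ^ n := fun x n => by rw [one_div_pow]
  rw [div_eq_mul_one_div (P q h), div_eq_mul_one_div (P Q h)]
  rw [hpow q, hpow q, hpow q, hpow q, hpow q, hpow q, hpow q, hpow q, hpow q, hpow Q, hpow Q,
    hpow Q, hpow Q, hpow Q, hpow Q, hpow Q, hpow Q, hpow Q, ← ha, ← hz]
  have k2 := pow_diff_le hz0.le haz.le haA 1
  have k3 := pow_diff_le hz0.le haz.le haA 2
  have k6 := pow_diff_le hz0.le haz.le haA 5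
  have k7 := pow_diff_le hz0.le haz.le haA 6
  have k8 := pow_diff_le hz0.le haz.le haA 7
  have k11 := pow_diff_le hz0.le haz.le haA 10
  have k12 := pow_diff_le hz0.le haz.le haA 11
  have k13 := pow_diff_le hz0.le haz.le haA 12
  norm_num at k2 k3 k6 k7 k8 k11 k12 k13
  have hD : 0 < a - z := by linarith
  -- the tail
  have t0 := P_nonneg hq1 h
  have t1 : P q h ≤ 1.1263 := by
    refine (P_le hq1 h).trans ?_
    rw [div_le_iff₀ (by linarith)]
    linarith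
  have t2 : P q h - P Q h ≤ 4.53 * (a - z) := by
    refine (P_lip hq1 h2.le h).trans ?_
    have e1 : 1 / (q - 1) - 1 / (Q - 1) = (Q - q) / ((q - 1) * (Q - 1)) := by
      have : q - 1 ≠ 0 := by linarith
      have : Q - 1 ≠ 0 := by linarith
      field_simp
      ring
    have e2 : a - z = (Q - q) / (q * Q) := by
      rw [ha, hz]
      have : q ≠ 0 := by linarith
      have : Q ≠ 0 := by linarith
      field_simp
    rw [e1, e2, ← mul_div_assoc, div_le_div_iff₀ (mul_pos (by linarith) (by linarith))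
      (by positivity)]
    have h3 : q * Q ≤ 4.53 * ((q - 1) * (Q - 1)) := by nlinarith
    calc (Q - q) * (q * Q) ≤ (Q - q) * (4.53 * ((q - 1) * (Q - 1))) :=
          mul_le_mul_of_nonneg_left h3 (by linarith)
      _ = 4.53 * (Q - q) * ((q - 1) * (Q - 1)) := by ring
  have z13 : z ^ 13 ≤ 0.0003 := by
    calc z ^ 13 ≤ 0.52967 ^ 13 := pow_le_pow_left₀ hz0.le (by linarith) _
      _ ≤ 0.0003 := by norm_num
  have t3 : P q h * a ^ 13 - P Q h * z ^ 13 ≤ 0.01 * (a - z) := by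
    have e : P q h * a ^ 13 - P Q h * z ^ 13 = P q h * (a ^ 13 - z ^ 13) +
        (P q h - P Q h) * z ^ 13 := by ring
    rw [e]
    have d13 : 0 ≤ a ^ 13 - z ^ 13 := by
      have := pow_le_pow_left₀ hz0.le haz.le 13
      linarith
    have s1 : P q h * (a ^ 13 - z ^ 13) ≤ 1.1263 * (a ^ 13 - z ^ 13) :=
      mul_le_mul_of_nonneg_right t1 d13
    have s2 : (P q h - P Q h) * z ^ 13 ≤ 4.53 * (a - z) * 0.0003 := by
      have := P_anti hq1 h2.le h
      exact mul_le_mul t2 z13 (by positivity) (by positivity)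
    nlinarith
  nlinarith

/-- the increment of `R` is at least `1.8 (1/q - 1/Q)` -/
theorem R_inc {Q : ℝ} (hQ : Base Q) {q : ℝ} (h1 : 1.888 ≤ q) (h2 : q < Q) :
    1.8 * (1 / q - 1 / Q) ≤ R q - R Q := by
  have hlo := hQ.lo
  have hhi := hQ.hi
  obtain ⟨a, ha⟩ : ∃ a, a = 1 / q := ⟨_, rfl⟩
  obtain ⟨z, hz⟩ : ∃ z, z = 1 / Q := ⟨_, rfl⟩
  have ha0 : 0 < a := by rw [ha]; positivity
  have hz0 : 0 < z := by rw [hz]; positivity
  have haz : z < a := by
    rw [ha, hz]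
    exact one_div_lt_one_div_of_lt (by linarith) h2
  have haA : a ≤ 0.52967 := by
    rw [ha, div_le_iff₀ (by linarith)]
    nlinarith
  have hzL : 0.5295 ≤ z := by
    rw [hz, le_div_iff₀ (by linarith)]
    nlinarith
  have eR : ∀ p : ℝ, 1 < p → R p = 1 / p + (1 / p) ^ 5 / (1 - 1 / p) := by
    intro p hp
    unfold R
    have h3 : p ≠ 0 := by linarith
    have h4 : p - 1 ≠ 0 := by linarith
    have h5 : 1 - 1 / p ≠ 0 := by
      rw [one_sub_div h3]
      exact div_ne_zero h4 h3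
    field_simp
  rw [eR q (by linarith), eR Q (by linarith), ← ha, ← hz]
  have h3 : a ^ 5 / (1 - z) ≤ a ^ 5 / (1 - a) :=
    div_le_div_of_nonneg_left (by positivity) (by linarith) (by linarith)
  have h4 : 0.8 * (a - z) ≤ (a ^ 5 - z ^ 5) / (1 - z) := by
    rw [le_div_iff₀ (by linarith)]
    have e : a ^ 5 - z ^ 5 = (a - z) * (a ^ 4 + a ^ 3 * z + a ^ 2 * z ^ 2 + a * z ^ 3 + z ^ 4) := by
      ring
    rw [e]
    have hl : ∀ x y : ℝ, z ≤ x → z ≤ y → z ^ 2 ≤ x * y := fun x y hx hy => by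
      rw [sq]; exact mul_le_mul hx hy hz0.le (hz0.le.trans hx)
    have b4 : z ^ 4 ≤ a ^ 4 := pow_le_pow_left₀ hz0.le haz.le 4
    have b3 : z ^ 4 ≤ a ^ 3 * z := by
      have := pow_le_pow_left₀ hz0.le haz.le 3
      calc z ^ 4 = z ^ 3 * z := by ring
        _ ≤ a ^ 3 * z := mul_le_mul_of_nonneg_right this hz0.le
    have b2 : z ^ 4 ≤ a ^ 2 * z ^ 2 := by
      have := pow_le_pow_left₀ hz0.le haz.le 2
      calc z ^ 4 = z ^ 2 * z ^ 2 := by ring
        _ ≤ a ^ 2 * z ^ 2 := mul_le_mul_of_nonneg_right this (by positivity)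
    have b1 : z ^ 4 ≤ a * z ^ 3 := by
      calc z ^ 4 = z * z ^ 3 := by ring
        _ ≤ a * z ^ 3 := mul_le_mul_of_nonneg_right haz.le (by positivity)
    have c1 : (0.5295 : ℝ) ^ 4 ≤ z ^ 4 := pow_le_pow_left₀ (by norm_num) hzL 4
    norm_num at c1
    have h5 : 0.8 * (1 - z) ≤ a ^ 4 + a ^ 3 * z + a ^ 2 * z ^ 2 + a * z ^ 3 + z ^ 4 := by linarith
    calc 0.8 * (a - z) * (1 - z) = (a - z) * (0.8 * (1 - z)) := by ring
      _ ≤ _ := mul_le_mul_of_nonneg_left h5 (by linarith)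
  have h6 : (a ^ 5 - z ^ 5) / (1 - z) = a ^ 5 / (1 - z) - z ^ 5 / (1 - z) := by ring
  rw [h6] at h4
  linarith

/-- the main comparison -/
theorem R_half {Q : ℝ} (hQ : Base Q) {q : ℝ} (h1 : 1.888 ≤ q) (h2 : q < Q) {g : ℕ → Bool}
    (hg : ∀ l < 13, g l = B l) (h3 : P q g = 1) : (1 - P Q g) / 2 ≤ R q - R Q := by
  have a1 := P_inc hQ h1 h2 hg
  have a2 := R_inc hQ h1 h2
  rw [h3] at a1
  have : 0 < 1 / q - 1 / Q := by
    have := one_div_lt_one_div_of_lt (by linarith : (0:ℝ) < q) h2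
    linarith
  linarith

end Pool.Agent.U425.LV
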